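import Pool.Agent.X15.SysS.Main

/-! Systems of polynomials with signs: prime values at primes with several close neighbours. -/

set_option autoImplicit false

open Finset Filter Topology Polynomial

namespace Pool.Agent.X15.SysS

open Pool.Agent.TH882.JS (MostDense)
open Pool.Agent.TH882.KS (LocV)
open Pool.Agent.TH882.IS (RepA)

lemma clu_most (m : ℕ) (ε : ℝ) (hε : 0 < ε) : MostDense (Pool.Agent.TH882.JS.KP m ε) := by
  classical
  refine ⟨?_, fun η hη => Pool.Agent.TH882.JS.most_classes m ε η hε hη⟩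
  intro X b n hn
  unfold Pool.Agent.TH882.JS.KP at hn
  rw [mem_filter] at hn ⊢
  exact ⟨hn.1, hn.2.1⟩

/-- `p` is a prime, and there are at least `m` other primes at distance at most `R` from `p`. -/
def Clustered (m : ℕ) (R : ℝ) (p : ℕ) : Prop :=
  p.Prime ∧ m ≤ {q : ℕ | q.Prime ∧ q ≠ p ∧ |(q : ℝ) - p| ≤ R}.ncard

open Classical in
theorem clu_sys {r : ℕ} (σ : Fin r → ℤ) (hσ : ∀ j, σ j = 1 ∨ σ j = -1) (g : Fin r → ℤ[X])
    (hd : ∀ j, 1 ≤ (g j).natDegree)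
    (hl : ∀ j, 0 < (g j).leadingCoeff) (m : ℕ) (ε : ℝ) (hε : 0 < ε) (K : ℕ)
    (κ : ℝ) (hκ : 0 < κ) : ∃ c : ℝ, 0 < c ∧ ∃ x₀ : ℕ, ∀ x : ℕ, x₀ ≤ x →
      (((Fintype.piFinset (fun j : Fin r => Icc 1 (K * x ^ (g j).natDegree))).filter
        (fun k => LocV σ g k ∧ ((((Icc 1 x).filter (fun n : ℕ =>
          Clustered m (ε * Real.log n) n ∧
            ∀ j, ((k j : ℤ) + σ j * (g j).eval (n : ℤ)).toNat.Prime)).card : ℕ) : ℝ) <
          c * (x / Real.log x ^ (r + 1)))).card : ℝ) ≤ κ * ∏ j, (x : ℝ) ^ (g j).natDegree := by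
  obtain ⟨L, hL, c, hc, x₀, h⟩ := sysS σ hσ g hd hl (Pool.Agent.TH882.JS.KP m ε)
    (clu_most m ε hε) K κ hκ
  refine ⟨c, hc, max x₀ (4 * L), fun x hx => ?_⟩
  have hx0 : x₀ ≤ x := by omega
  refine le_trans ?_ (h x hx0)
  apply Nat.cast_le.2
  apply card_le_card
  intro k hk
  rw [mem_filter] at hk ⊢
  obtain ⟨hk1, hk2, hk3⟩ := hk
  refine ⟨hk1, hk2, lt_of_le_of_lt ?_ hk3⟩
  apply Nat.cast_le.2
  apply card_le_card
  have hX4 : 4 ≤ x / L := by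
    rw [Nat.le_div_iff_mul_le (by omega)]
    omega
  have hXx : L * (x / L) ≤ x := Nat.mul_div_le x L
  have hX3 : 3 * (x / L) ≤ x := (Nat.mul_le_mul_right _ hL).trans hXx
  set X : ℕ := x / L with hX
  intro n hn
  unfold RepA at hn
  rw [mem_filter, mem_Ico] at hn
  obtain ⟨⟨hn1, hn2⟩, hn3, hn4⟩ := hn
  unfold Pool.Agent.TH882.JS.KP at hn3
  rw [mem_filter] at hn3
  rw [mem_filter, mem_Icc]
  refine ⟨⟨by omega, by omega⟩, ⟨hn3.2.1, ?_⟩, hn4⟩
  have hX1 : (1 : ℝ) ≤ (X : ℕ) := by exact_mod_cast (by omega : 1 ≤ X)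
  have hlog : Real.log (X : ℕ) ≤ Real.log n := by
    apply Real.log_le_log (by linarith)
    exact_mod_cast hn1
  have hlX : 0 ≤ Real.log (X : ℕ) := Real.log_nonneg hX1
  have hfl : ((⌊ε * Real.log (X : ℕ)⌋₊ : ℕ) : ℝ) ≤ ε * Real.log n := by
    refine (Nat.floor_le (by positivity)).trans ?_
    exact mul_le_mul_of_nonneg_left hlog hε.le
  refine hn3.2.2.trans ?_
  unfold Pool.Agent.TH882.JS.nb
  rw [← Set.ncard_coe_finset]
  apply Set.ncard_le_ncard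
  · intro q hq
    rw [mem_coe, mem_filter, mem_Icc] at hq
    obtain ⟨⟨h1, h2⟩, h3, h4⟩ := hq
    refine ⟨h3, h4, ?_⟩
    rw [abs_le]
    have e1 : (n : ℝ) ≤ q + (⌊ε * Real.log (X : ℕ)⌋₊ : ℕ) := by
      have : n ≤ q + ⌊ε * Real.log (X : ℕ)⌋₊ := by omega
      exact_mod_cast this
    have e2 : (q : ℝ) ≤ n + (⌊ε * Real.log (X : ℕ)⌋₊ : ℕ) := by exact_mod_cast h2
    constructor <;> linarith
  · apply (Set.finite_Iic (n + ⌈ε * Real.log n⌉₊)).subset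
    rintro q ⟨-, -, h3⟩
    rw [Set.mem_Iic]
    rw [abs_le] at h3
    have e1 : (q : ℝ) ≤ ((n + ⌈ε * Real.log n⌉₊ : ℕ) : ℝ) := by
      push_cast
      have := Nat.le_ceil (ε * Real.log n)
      linarith [h3.2]
    exact_mod_cast e1

end Pool.Agent.X15.SysS
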