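import Pool.Agent.TH882.FinG2

/-! Almost all constant terms, with tuples of primes and almost primes (set form of `finPlus`). -/

set_option autoImplicit false

open Finset Filter Topology Polynomial

namespace Pool.Agent.X15.SysS.FinP

/-- no local obstruction -/
def Loc (FZ : ℤ → ℤ) (S : Finset ℤ) (k : ℕ) : Prop :=
  ∀ l : ℕ, l.Prime → ∃ y : ℤ, ¬ (l : ℤ) ∣ y ∧ ¬ (l : ℤ) ∣ FZ y + k ∧ ∀ a ∈ S, ¬ (l : ℤ) ∣ y + a

/-- the primes of one system -/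
def Sol (F : ℕ → ℕ) (H S : Finset ℤ) (r k x : ℕ) : Set ℕ :=
  {p : ℕ | p ≤ x ∧ p.Prime ∧ (F p + k).Prime ∧ (∀ h ∈ H, ∃ q : ℕ, q.Prime ∧ (q : ℤ) = p + h) ∧
    ∀ h ∈ insert 0 H, ∀ a ∈ S, 0 < (p : ℤ) + h + a ∧
      ArithmeticFunction.cardFactors ((p : ℤ) + h + a).toNat ≤ r}

/-- the exceptional constant terms -/
def Ex (F : ℕ → ℕ) (FZ : ℤ → ℤ) (d : ℕ) (S : Finset ℤ) (m r C D κ x : ℕ) : Set ℕ :=
  {k : ℕ | (1 ≤ k ∧ k ≤ κ * x ^ d) ∧ Loc FZ S k ∧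
    ¬ ∃ H : Finset ℤ, H.card = m ∧ (∀ h ∈ H, h ≠ 0 ∧ |h| ≤ C) ∧
      (x : ℝ) / Real.log x ^ D ≤ ((Sol F H S r k x).ncard : ℝ)}

theorem finp (g : ℤ[X]) (hd : 1 ≤ g.natDegree) (hl : 0 < g.leadingCoeff) (F : ℕ → ℕ) (FZ : ℤ → ℤ)
    (hF : ∀ n : ℕ, (F n : ℤ) = g.eval (n : ℤ)) (hFZ : ∀ y : ℤ, FZ y = g.eval y) (S : Finset ℤ) (m : ℕ) :
    ∃ r C D : ℕ, ∀ κ : ℕ, Tendsto (fun x : ℕ =>
      ((Ex F FZ g.natDegree S m r C D κ x).ncard : ℝ) / (x : ℝ) ^ g.natDegree) atTop (𝓝 0) := by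
  classical
  obtain ⟨r, C, D, h⟩ := Pool.Agent.TH882.PG.finPlus g hd hl S m
  refine ⟨r, C, D, fun κ => ?_⟩
  refine squeeze_zero (fun x => by positivity) (fun x => ?_) (h κ)
  apply div_le_div_of_nonneg_right _ (by positivity)
  apply Nat.cast_le.2
  rw [← Set.ncard_coe_finset]
  apply Set.ncard_le_ncard _ (finite_toSet _)
  rintro k ⟨hk1, hk2, hk3⟩
  unfold Pool.Agent.TH882.PG.ExP
  rw [mem_coe, mem_filter, mem_Icc]
  refine ⟨hk1, ?_, ?_⟩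
  · intro l hl'
    obtain ⟨y, h1, h2, h3⟩ := hk2 l hl'
    refine ⟨y, h1, ?_, h3⟩
    rw [hFZ] at h2
    have e : (k : ℤ) + 1 * g.eval y = g.eval y + k := by ring
    rw [e]
    exact h2
  · rintro ⟨H, hH1, hH2, hH3⟩
    apply hk3
    refine ⟨H, hH1, hH2, hH3.trans ?_⟩
    apply Nat.cast_le.2
    rw [← Set.ncard_coe_finset]
    apply Set.ncard_le_ncard _ ((Set.finite_Iic x).subset fun n hn => hn.1)
    intro n hn
    unfold Pool.Agent.TH882.PG.Sys at hn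
    rw [mem_coe, mem_filter, mem_Icc] at hn
    obtain ⟨⟨hn1, hn2⟩, hn3, hn4⟩ := hn
    obtain ⟨_, h6, _⟩ := hn4 0 (mem_insert_self _ _)
    rw [add_zero, Int.toNat_natCast] at h6
    refine ⟨hn2, h6, ?_, ?_, fun h hh => (hn4 h hh).2.2⟩
    · have e : (k : ℤ) + 1 * g.eval (n : ℤ) = ((F n + k : ℕ) : ℤ) := by
        rw [← hF n]
        push_cast
        ring
      rw [e, Int.toNat_natCast] at hn3
      exact hn3
    · intro h hh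
      obtain ⟨h7, h8, _⟩ := hn4 h (mem_insert_of_mem hh)
      exact ⟨_, h8, Int.toNat_of_nonneg h7⟩

end Pool.Agent.X15.SysS.FinP
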