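import Pool.Agent.X15.SysS.Main
import Pool.Agent.TH882.Y4

/-! Systems of polynomials with signs: prime values at primes whose index lies in a syndetic set. -/

set_option autoImplicit false

open Finset Filter Topology Polynomial

namespace Pool.Agent.X15.SysS

open Pool.Agent.TH882.KS (LocV)
open Pool.Agent.TH882.IS (RepA)

open Classical in
theorem idx_sys {r : ℕ} (σ : Fin r → ℤ) (hσ : ∀ j, σ j = 1 ∨ σ j = -1) (g : Fin r → ℤ[X])
    (hd : ∀ j, 1 ≤ (g j).natDegree)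
    (hl : ∀ j, 0 < (g j).leadingCoeff) (M : ℕ) (hM : 1 ≤ M) (S : Set ℕ)
    (hS : Pool.Agent.TH882.HY.Syn M S) (K : ℕ)
    (κ : ℝ) (hκ : 0 < κ) : ∃ c : ℝ, 0 < c ∧ ∃ x₀ : ℕ, ∀ x : ℕ, x₀ ≤ x →
      (((Fintype.piFinset (fun j : Fin r => Icc 1 (K * x ^ (g j).natDegree))).filter
        (fun k => LocV σ g k ∧ ((((Icc 1 x).filter (fun n : ℕ =>
          n.Prime ∧ Nat.primeCounting n ∈ S ∧
            ∀ j, ((k j : ℤ) + σ j * (g j).eval (n : ℤ)).toNat.Prime)).card : ℕ) : ℝ) <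
          c * (x / Real.log x ^ (r + 1)))).card : ℝ) ≤ κ * ∏ j, (x : ℝ) ^ (g j).natDegree := by
  obtain ⟨L, hL, c, hc, x₀, h⟩ := sysS σ hσ g hd hl (Pool.Agent.TH882.HY.IS S)
    (Pool.Agent.TH882.HY.IS_most M hM S hS) K κ hκ
  refine ⟨c, hc, max x₀ (4 * L), fun x hx => ?_⟩
  have hx0 : x₀ ≤ x := by omega
  refine le_trans ?_ (h x hx0)
  apply Nat.cast_le.2
  apply card_le_card
  intro k hk
  rw [mem_filter] at hk ⊢
  obtain ⟨hk1, hk2, hk3⟩ := hk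
  refine ⟨hk1, hk2, lt_of_le_of_lt ?_ hk3⟩
  apply Nat.cast_le.2
  apply card_le_card
  have hX4 : 4 ≤ x / L := by
    rw [Nat.le_div_iff_mul_le (by omega)]
    omega
  have hXx : L * (x / L) ≤ x := Nat.mul_div_le x L
  have hX3 : 3 * (x / L) ≤ x := (Nat.mul_le_mul_right _ hL).trans hXx
  set X : ℕ := x / L with hX
  intro n hn
  unfold RepA at hn
  rw [mem_filter, mem_Ico] at hn
  obtain ⟨⟨hn1, hn2⟩, hn3, hn4⟩ := hn
  unfold Pool.Agent.TH882.HY.IS at hn3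
  rw [mem_filter] at hn3
  rw [mem_filter, mem_Icc]
  exact ⟨⟨by omega, by omega⟩, hn3.2.1, hn3.2.2, hn4⟩

end Pool.Agent.X15.SysS
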