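import Pool.Agent.X15.SysS.Main
import Pool.Agent.TH882.I4

/-! Systems of polynomials with signs: prime values at isolated primes. -/

set_option autoImplicit false

open Finset Filter Topology Polynomial

namespace Pool.Agent.X15.SysS

open Pool.Agent.TH882.JS (MostDense)
open Pool.Agent.TH882.KS (LocV)
open Pool.Agent.TH882.IS (RepA)

open Classical in
/-- isolated primes are dense in all reduced classes -/
lemma iso_most (Λ : ℝ) (hΛ : 0 < Λ) : MostDense (Pool.Agent.TH882.IS.IP Λ) := by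
  refine ⟨?_, fun η hη => ?_⟩
  · intro X b n hn
    unfold Pool.Agent.TH882.IS.IP at hn
    rw [mem_filter] at hn ⊢
    exact ⟨hn.1, hn.2.1⟩
  · obtain ⟨c, hc, X₀, h⟩ := Pool.Agent.TH882.IS.isoD Λ hΛ
    refine ⟨c, hc, X₀, fun X hX => ?_⟩
    have h0 : (Pool.Agent.TH882.JS.Rd X).filter (fun b =>
        ((Pool.Agent.TH882.IS.IP Λ X b).card : ℝ) <
          c * (X / (Nat.totient (Pool.Agent.H361R2.PP.Wm X) * Real.log X))) = ∅ := by
      rw [filter_eq_empty_iff]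
      intro b hb
      unfold Pool.Agent.TH882.JS.Rd at hb
      rw [mem_filter, mem_range] at hb
      exact not_lt.2 (h X hX b hb.1 hb.2)
    rw [h0, card_empty, Nat.cast_zero]
    positivity

/-- `n` is a prime, and no other prime is at distance at most `R` from `n`. -/
def Isolated (R : ℝ) (n : ℕ) : Prop := n.Prime ∧ ∀ q : ℕ, q.Prime → |(q : ℝ) - n| ≤ R → q = n

open Classical in
theorem iso_sys {r : ℕ} (σ : Fin r → ℤ) (hσ : ∀ j, σ j = 1 ∨ σ j = -1) (g : Fin r → ℤ[X])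
    (hd : ∀ j, 1 ≤ (g j).natDegree)
    (hl : ∀ j, 0 < (g j).leadingCoeff) (Λ : ℝ) (hΛ : 0 < Λ) (K : ℕ)
    (κ : ℝ) (hκ : 0 < κ) : ∃ c : ℝ, 0 < c ∧ ∃ x₀ : ℕ, ∀ x : ℕ, x₀ ≤ x →
      (((Fintype.piFinset (fun j : Fin r => Icc 1 (K * x ^ (g j).natDegree))).filter
        (fun k => LocV σ g k ∧ ((((Icc 1 x).filter (fun n : ℕ =>
          Isolated (Λ * Real.log n) n ∧
            ∀ j, ((k j : ℤ) + σ j * (g j).eval (n : ℤ)).toNat.Prime)).card : ℕ) : ℝ) <
          c * (x / Real.log x ^ (r + 1)))).card : ℝ) ≤ κ * ∏ j, (x : ℝ) ^ (g j).natDegree := by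
  obtain ⟨L, hL, c, hc, x₀, h⟩ := sysS σ hσ g hd hl (Pool.Agent.TH882.IS.IP (2 * Λ))
    (iso_most (2 * Λ) (by positivity)) K κ hκ
  refine ⟨c, hc, max x₀ (4 * L), fun x hx => ?_⟩
  have hx0 : x₀ ≤ x := by omega
  refine le_trans ?_ (h x hx0)
  apply Nat.cast_le.2
  apply card_le_card
  intro k hk
  rw [mem_filter] at hk ⊢
  obtain ⟨hk1, hk2, hk3⟩ := hk
  refine ⟨hk1, hk2, lt_of_le_of_lt ?_ hk3⟩
  apply Nat.cast_le.2
  apply card_le_card
  have hX4 : 4 ≤ x / L := by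
    rw [Nat.le_div_iff_mul_le (by omega)]
    omega
  have hXx : L * (x / L) ≤ x := Nat.mul_div_le x L
  have hX3 : 3 * (x / L) ≤ x := (Nat.mul_le_mul_right _ hL).trans hXx
  set X : ℕ := x / L with hX
  intro n hn
  unfold RepA at hn
  rw [mem_filter, mem_Ico] at hn
  obtain ⟨⟨hn1, hn2⟩, hn3, hn4⟩ := hn
  unfold Pool.Agent.TH882.IS.IP at hn3
  rw [mem_filter] at hn3
  rw [mem_filter, mem_Icc]
  refine ⟨⟨by omega, by omega⟩, ⟨hn3.2.1, ?_⟩, hn4⟩
  have hX1 : (2 : ℝ) ≤ (X : ℕ) := by exact_mod_cast (by omega : 2 ≤ X)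
  have hn0 : (0 : ℝ) < n := by exact_mod_cast (by omega : 0 < n)
  have hlog : Real.log n ≤ 2 * Real.log (X : ℕ) := by
    have h2 : (n : ℝ) ≤ (X : ℝ) ^ 2 := by
      have h3 : (n : ℝ) ≤ 2 * (X : ℕ) := by exact_mod_cast hn2.le
      nlinarith
    calc Real.log n ≤ Real.log ((X : ℝ) ^ 2) := Real.log_le_log hn0 h2
      _ = 2 * Real.log (X : ℕ) := by
        rw [Real.log_pow]
        push_cast
        ring
  have hR : Λ * Real.log n ≤ 2 * Λ * Real.log (X : ℕ) := by nlinarith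
  intro q hq hqn
  rw [abs_le] at hqn
  exact hn3.2.2 q hq (by linarith [hqn.2]) (by linarith [hqn.1])

end Pool.Agent.X15.SysS
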