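import Pool.Agent.TH882.K4

/-! Systems of polynomials with signs and varying constant terms: prime values at the elements of a set of
primes which is dense in most classes. -/

set_option autoImplicit false

open Finset Filter Topology Polynomial

namespace Pool.Agent.X15.SysS

open Pool.Agent.H361R2.PP
open Pool.Agent.TH882.PC (wX wX_one wX_pos)
open Pool.Agent.TH882.IS (rhoS RepA)
open Pool.Agent.TH882.JS (MostDense clsM)
open Pool.Agent.TH882.KS (LocV sing_most)
open Pool.Agent.H373R2.T7 (cf abs_eval_le)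

open Classical in
/-- few vectors have a small coordinate -/
lemma small_card {r : ℕ} (U T : Fin r → ℕ) :
    ((Fintype.piFinset (fun j => Icc 1 (U j))).filter (fun k => ∃ j, k j ≤ T j)).card ≤
      ∑ j, T j * ∏ i ∈ univ.erase j, U i := by
  have hsub : (Fintype.piFinset (fun j => Icc 1 (U j))).filter (fun k => ∃ j, k j ≤ T j) ⊆
      univ.biUnion (fun j => Fintype.piFinset
        (fun i => if i = j then Icc 1 (T i) else Icc 1 (U i))) := by
    intro k hk
    rw [mem_filter, Fintype.mem_piFinset] at hk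
    obtain ⟨hk1, j, hj⟩ := hk
    rw [mem_biUnion]
    refine ⟨j, mem_univ j, ?_⟩
    rw [Fintype.mem_piFinset]
    intro i
    have h1 := mem_Icc.1 (hk1 i)
    by_cases hij : i = j
    · subst hij
      rw [if_pos rfl, mem_Icc]
      exact ⟨h1.1, hj⟩
    · rw [if_neg hij]
      exact hk1 i
  refine (card_le_card hsub).trans (card_biUnion_le.trans (sum_le_sum fun j _ => ?_))
  rw [Fintype.card_piFinset, ← mul_prod_erase univ _ (mem_univ j)]
  simp only [if_true, Nat.card_Icc, Nat.add_sub_cancel]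
  apply Nat.mul_le_mul_left
  apply le_of_eq
  apply prod_congr rfl
  intro i hi
  rw [if_neg (ne_of_mem_erase hi), Nat.card_Icc, Nat.add_sub_cancel]

open Classical in
theorem sysS {r : ℕ} (σ : Fin r → ℤ) (hσ : ∀ j, σ j = 1 ∨ σ j = -1) (g : Fin r → ℤ[X])
    (hd : ∀ j, 1 ≤ (g j).natDegree)
    (hl : ∀ j, 0 < (g j).leadingCoeff) (A : ℕ → ℕ → Finset ℕ) (hA : MostDense A) (K : ℕ)
    (κ : ℝ) (hκ : 0 < κ) : ∃ L : ℕ, 3 ≤ L ∧ ∃ c : ℝ, 0 < c ∧ ∃ x₀ : ℕ, ∀ x : ℕ, x₀ ≤ x →
      (((Fintype.piFinset (fun j : Fin r => Icc 1 (K * x ^ (g j).natDegree))).filter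
        (fun k => LocV σ g k ∧ ((RepA σ g A (x / L) (fun j => (k j : ℤ))).card : ℝ) <
          c * (x / Real.log x ^ (r + 1)))).card : ℝ) ≤ κ * ∏ j, (x : ℝ) ^ (g j).natDegree := by
  set D : ℕ := ∑ j, cf (g j) * 3 ^ (g j).natDegree with hD
  set L : ℕ := 3 + ⌈4 * (D : ℝ) * ((K : ℝ) + 1) ^ r / κ⌉₊ with hL
  have hL3 : 3 ≤ L := by omega
  have hLr : 4 * (D : ℝ) * ((K : ℝ) + 1) ^ r / κ ≤ L := by
    rw [hL]
    push_cast
    have := Nat.le_ceil (4 * (D : ℝ) * ((K : ℝ) + 1) ^ r / κ)
    linarith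
  have hL0 : (0 : ℝ) < L := by
    have : 0 < L := by omega
    exact_mod_cast this
  set B : ℕ := ∑ j, (cf (g j) * 3 ^ (g j).natDegree + K * (L + 1) ^ (g j).natDegree) + 3 with hB
  have hB0 : (0 : ℝ) < B := by
    have : 0 < B := by omega
    exact_mod_cast this
  obtain ⟨τ, hτ, hsing⟩ := sing_most σ hσ g hd hl (κ / 4 / (B : ℝ) ^ r) (by positivity)
  obtain ⟨c0, hc0, X1, h1⟩ := clsM σ hσ g hd hl B (κ / 4) τ (by positivity) hτ A hA
  have hpos : ∀ j, ∃ n0 : ℕ, ∀ n : ℕ, n0 ≤ n → 0 ≤ (g j).eval (n : ℤ) := fun j =>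
    Pool.Agent.TH882.PA.pos (g j) (hd j) (hl j) 0
  choose n0 hn0 using hpos
  refine ⟨L, hL3, c0 * τ / (L + 1), by positivity, L * (X1 + ∑ j, n0 j + 16 + L), ?_⟩
  intro x hx
  set X : ℕ := x / L with hX
  have hLp : 0 < L := by omega
  have hXX : X1 + ∑ j, n0 j + 16 + L ≤ X := by
    rw [hX, Nat.le_div_iff_mul_le hLp, mul_comm]
    exact hx
  have hXLx : L * X ≤ x := Nat.mul_div_le x L
  have hX3x : X ≤ x := by
    calc X = 1 * X := (one_mul X).symm
      _ ≤ L * X := Nat.mul_le_mul_right _ (by omega)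
      _ ≤ x := hXLx
  have hx4 : x ≤ (L + 1) * X := by
    have e1 : x < L * X + L := by
      have := Nat.lt_mul_div_succ x hLp
      rw [← hX, Nat.mul_succ] at this
      exact this
    have e2 : (L + 1) * X = L * X + X := by ring
    omega
  have hn0j : ∀ j, n0 j ≤ X := by
    intro j
    have : n0 j ≤ ∑ j, n0 j := single_le_sum (f := n0) (fun i _ => Nat.zero_le _) (mem_univ j)
    omega
  have hXr : (16 : ℝ) ≤ X := by
    have : 16 ≤ X := by omega
    exact_mod_cast this
  have hX0 : (0 : ℝ) < X := by linarith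
  have hXx : (X : ℝ) ≤ x := by exact_mod_cast hX3x
  have hx4r : (x : ℝ) ≤ (L + 1) * X := by exact_mod_cast hx4
  have hx0 : (0 : ℝ) < x := by linarith
  set ℓ := Real.log X with hℓ
  have hl1 : 1 ≤ ℓ := by
    rw [hℓ, Real.le_log_iff_exp_le hX0]
    have := Real.exp_one_lt_d9
    linarith
  have hlx : ℓ ≤ Real.log x := Real.log_le_log hX0 hXx
  have hWp := Wm_pos X
  have hW0 : (0 : ℝ) < Wm X := by exact_mod_cast hWp
  have hφ0 : (0 : ℝ) < Nat.totient (Wm X) := by exact_mod_cast Nat.totient_pos.2 hWp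
  have hWX : Wm X ≤ X := by
    have e1 := Pool.Agent.H325R2.wtx1 X (by omega)
    have e2 : (Wm X : ℝ) ≤ X := by
      refine e1.trans ?_
      calc ℓ ^ (7 / 20 : ℝ) ≤ ℓ ^ (1 : ℝ) :=
            Real.rpow_le_rpow_of_exponent_le hl1 (by norm_num)
        _ = ℓ := Real.rpow_one _
        _ ≤ X := by
            have := Real.log_le_sub_one_of_pos hX0
            linarith
    exact_mod_cast e2
  set T : Fin r → ℕ := fun j => cf (g j) * (3 * X) ^ (g j).natDegree with hT
  set Y : Fin r → ℕ := fun j => if σ j = 1 then T j else 0 with hY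
  have hYT : ∀ j, Y j ≤ T j := by
    intro j
    rw [hY]
    simp only
    split_ifs <;> omega
  have hXd : ∀ j, X ≤ X ^ (g j).natDegree := fun j => by
    calc X = X ^ 1 := (pow_one _).symm
      _ ≤ X ^ (g j).natDegree := Nat.pow_le_pow_right (by omega) (hd j)
  have hBj : ∀ j, cf (g j) * 3 ^ (g j).natDegree + K * (L + 1) ^ (g j).natDegree + 3 ≤ B := by
    intro j
    have : cf (g j) * 3 ^ (g j).natDegree + K * (L + 1) ^ (g j).natDegree ≤
        ∑ j, (cf (g j) * 3 ^ (g j).natDegree + K * (L + 1) ^ (g j).natDegree) :=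
      single_le_sum (f := fun j => cf (g j) * 3 ^ (g j).natDegree + K * (L + 1) ^ (g j).natDegree)
        (fun i _ => Nat.zero_le _) (mem_univ j)
    omega
  have hZB : ∀ j, T j + 1 + K * x ^ (g j).natDegree + X ≤ B * X ^ (g j).natDegree := by
    intro j
    have e1 : T j = cf (g j) * 3 ^ (g j).natDegree * X ^ (g j).natDegree := by
      rw [hT]
      simp only
      rw [mul_pow]
      ring
    have e2 : K * x ^ (g j).natDegree ≤ K * (L + 1) ^ (g j).natDegree * X ^ (g j).natDegree := by
      calc K * x ^ (g j).natDegree ≤ K * ((L + 1) * X) ^ (g j).natDegree :=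
            Nat.mul_le_mul_left _ (Nat.pow_le_pow_left hx4 _)
        _ = _ := by rw [mul_pow]; ring
    have e3 := Nat.mul_le_mul_right (X ^ (g j).natDegree) (hBj j)
    have e4 : (cf (g j) * 3 ^ (g j).natDegree + K * (L + 1) ^ (g j).natDegree + 3) *
        X ^ (g j).natDegree = cf (g j) * 3 ^ (g j).natDegree * X ^ (g j).natDegree +
        K * (L + 1) ^ (g j).natDegree * X ^ (g j).natDegree + 3 * X ^ (g j).natDegree := by ring
    rw [e4] at e3
    have e5 : 1 ≤ X ^ (g j).natDegree := Nat.one_le_pow _ _ (by omega)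
    have e6 := hXd j
    omega
  obtain ⟨Bd, hB1, hB2⟩ := h1 X (by omega) Y (fun j => T j + 1)
    (fun j => T j + 1 + K * x ^ (g j).natDegree + X) (by
      intro j n hn1 hn2
      have e1 := hn0 j n (by have := hn0j j; omega)
      have e2 := abs_eval_le (g j) n (by omega)
      have e3 : (g j).eval (n : ℤ) ≤ T j := by
        calc (g j).eval (n : ℤ) ≤ |(g j).eval (n : ℤ)| := le_abs_self _
          _ ≤ (cf (g j) : ℤ) * (n : ℤ) ^ (g j).natDegree := e2
          _ ≤ (T j : ℤ) := by
              have : cf (g j) * n ^ (g j).natDegree ≤ T j :=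
                Nat.mul_le_mul_left _ (Nat.pow_le_pow_left hn2 _)
              exact_mod_cast this
      rcases hσ j with hs | hs
      · have e4 : Y j = T j := by
          rw [hY]
          simp only
          rw [if_pos hs]
        rw [e4, hs]
        push_cast
        constructor
        · linarith
        · linarith
      · have e4 : Y j = 0 := by
          rw [hY]
          simp only
          rw [if_neg (by rw [hs]; norm_num)]
        rw [e4, hs]
        push_cast
        constructor
        · linarith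
        · linarith) (fun j => by have := hYT j; omega) (fun j => by omega) hZB
  -- the vectors with small singular series
  set Ex := (Fintype.piFinset (fun j : Fin r => Ico 1 (1 + K * x ^ (g j).natDegree + X))).filter
    (fun k => LocV σ g k ∧ ((rhoS σ g X (fun j => (k j : ℤ))).card : ℝ) <
        τ * ((Nat.totient (Wm X) : ℝ) ^ (r + 1) / (Wm X : ℝ) ^ r)) with hEx
  have hExc : (Ex.card : ℝ) ≤ κ / 4 / (B : ℝ) ^ r *
      ∏ j, (((1 + K * x ^ (g j).natDegree + X : ℕ)) : ℝ) :=
    hsing X hWX (fun _ => 1) (fun j => 1 + K * x ^ (g j).natDegree + X)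
      (fun j => by omega) (fun j => by omega)
  set PX : ℝ := ∏ j, (X : ℝ) ^ (g j).natDegree with hPX
  have hPX0 : 0 ≤ PX := prod_nonneg fun j _ => by positivity
  have hExc2 : (Ex.card : ℝ) ≤ κ / 4 * PX := by
    refine hExc.trans ?_
    have e1 : ∏ j, (((1 + K * x ^ (g j).natDegree + X : ℕ)) : ℝ) ≤ (B : ℝ) ^ r * PX := by
      calc ∏ j, (((1 + K * x ^ (g j).natDegree + X : ℕ)) : ℝ) ≤
          ∏ j, ((B : ℝ) * (X : ℝ) ^ (g j).natDegree) := by
            apply Finset.prod_le_prod (fun _ _ => Nat.cast_nonneg _)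
            intro j _
            have e2 : 1 + K * x ^ (g j).natDegree + X ≤ B * X ^ (g j).natDegree := by
              have := hZB j
              omega
            exact_mod_cast e2
        _ = _ := by
            rw [prod_mul_distrib]
            simp only [prod_const, card_univ, Fintype.card_fin, ← hPX]
    calc κ / 4 / (B : ℝ) ^ r * ∏ j, (((1 + K * x ^ (g j).natDegree + X : ℕ)) : ℝ) ≤
        κ / 4 / (B : ℝ) ^ r * ((B : ℝ) ^ r * PX) := mul_le_mul_of_nonneg_left e1 (by positivity)
      _ = _ := by field_simp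
  -- the vectors with a small coordinate
  set Px : ℝ := ∏ j, (x : ℝ) ^ (g j).natDegree with hPxd
  have hPx0 : 0 ≤ Px := prod_nonneg fun j _ => by positivity
  have hPx : PX ≤ Px := by
    apply Finset.prod_le_prod (fun _ _ => by positivity)
    intro j _
    exact pow_le_pow_left₀ hX0.le hXx _
  set Sm := (Fintype.piFinset (fun j : Fin r => Icc 1 (K * x ^ (g j).natDegree))).filter
    (fun k => ∃ j, k j ≤ T j) with hSm
  have hSmc : (Sm.card : ℝ) ≤ κ / 4 * Px := by
    have e1 : (Sm.card : ℝ) ≤ ∑ j, (T j : ℝ) *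
        ∏ i ∈ univ.erase j, ((K : ℝ) * (x : ℝ) ^ (g i).natDegree) := by
      have := small_card (fun j : Fin r => K * x ^ (g j).natDegree) T
      rw [← hSm] at this
      exact_mod_cast this
    have e2 : ∀ j, (T j : ℝ) * ∏ i ∈ univ.erase j, ((K : ℝ) * (x : ℝ) ^ (g i).natDegree) ≤
        (cf (g j) * 3 ^ (g j).natDegree : ℕ) * (((K : ℝ) + 1) ^ r * Px / L) := by
      intro j
      have f1 : (T j : ℝ) ≤ (cf (g j) * 3 ^ (g j).natDegree : ℕ) *
          ((x : ℝ) ^ (g j).natDegree / L) := by
        have f2 : (X : ℝ) ^ (g j).natDegree ≤ (x : ℝ) ^ (g j).natDegree / L := by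
          rw [le_div_iff₀ hL0]
          obtain ⟨e, he⟩ : ∃ e, (g j).natDegree = e + 1 := ⟨(g j).natDegree - 1, by
            have := hd j
            omega⟩
          rw [he, pow_succ, pow_succ, mul_assoc]
          have f3 : (X : ℝ) * L ≤ x := by
            have : X * L ≤ x := by rw [mul_comm]; exact hXLx
            exact_mod_cast this
          exact mul_le_mul (pow_le_pow_left₀ hX0.le hXx e) f3 (by positivity) (by positivity)
        have f3 : (T j : ℝ) = (cf (g j) * 3 ^ (g j).natDegree : ℕ) * (X : ℝ) ^ (g j).natDegree := by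
          rw [hT]
          simp only
          push_cast
          rw [mul_pow]
          ring
        rw [f3]
        exact mul_le_mul_of_nonneg_left f2 (Nat.cast_nonneg _)
      have f4 : ∏ i ∈ univ.erase j, ((K : ℝ) * (x : ℝ) ^ (g i).natDegree) ≤
          ∏ i ∈ univ.erase j, (((K : ℝ) + 1) * (x : ℝ) ^ (g i).natDegree) := by
        apply Finset.prod_le_prod (fun _ _ => by positivity)
        intro i _
        apply mul_le_mul_of_nonneg_right _ (by positivity)
        linarith
      have f5 : ((x : ℝ) ^ (g j).natDegree) *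
          ∏ i ∈ univ.erase j, (((K : ℝ) + 1) * (x : ℝ) ^ (g i).natDegree) ≤
          ((K : ℝ) + 1) ^ r * Px := by
        have f6 : ∏ i : Fin r, (((K : ℝ) + 1) * (x : ℝ) ^ (g i).natDegree) =
            ((K : ℝ) + 1) ^ r * Px := by
          rw [prod_mul_distrib]
          simp only [prod_const, card_univ, Fintype.card_fin, ← hPxd]
        rw [← f6, ← mul_prod_erase univ _ (mem_univ j)]
        apply mul_le_mul_of_nonneg_right _ (prod_nonneg fun i _ => by positivity)
        have : 0 ≤ (K : ℝ) * (x : ℝ) ^ (g j).natDegree := by positivity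
        linarith
      calc (T j : ℝ) * ∏ i ∈ univ.erase j, ((K : ℝ) * (x : ℝ) ^ (g i).natDegree) ≤
          ((cf (g j) * 3 ^ (g j).natDegree : ℕ) * ((x : ℝ) ^ (g j).natDegree / L)) *
          ∏ i ∈ univ.erase j, (((K : ℝ) + 1) * (x : ℝ) ^ (g i).natDegree) :=
            mul_le_mul f1 f4 (prod_nonneg fun i _ => by positivity) (by positivity)
        _ = (cf (g j) * 3 ^ (g j).natDegree : ℕ) * (((x : ℝ) ^ (g j).natDegree *
          ∏ i ∈ univ.erase j, (((K : ℝ) + 1) * (x : ℝ) ^ (g i).natDegree)) / L) := by ring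
        _ ≤ _ := by
            apply mul_le_mul_of_nonneg_left _ (Nat.cast_nonneg _)
            exact div_le_div_of_nonneg_right f5 hL0.le
    have e3 : ∑ j, (T j : ℝ) * ∏ i ∈ univ.erase j, ((K : ℝ) * (x : ℝ) ^ (g i).natDegree) ≤
        (D : ℝ) * (((K : ℝ) + 1) ^ r * Px / L) := by
      calc ∑ j, (T j : ℝ) * ∏ i ∈ univ.erase j, ((K : ℝ) * (x : ℝ) ^ (g i).natDegree) ≤
          ∑ j, (cf (g j) * 3 ^ (g j).natDegree : ℕ) * (((K : ℝ) + 1) ^ r * Px / L) :=
            sum_le_sum fun j _ => e2 j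
        _ = _ := by
            rw [← sum_mul, hD]
            push_cast
            rfl
    refine (e1.trans e3).trans ?_
    have e4 : 4 * (D : ℝ) * ((K : ℝ) + 1) ^ r ≤ L * κ := by
      rwa [div_le_iff₀ hκ] at hLr
    rw [mul_div_assoc', div_le_iff₀ hL0]
    nlinarith
  set Tt := (Fintype.piFinset (fun j : Fin r => Icc 1 (K * x ^ (g j).natDegree))).filter
        (fun k => LocV σ g k ∧ ((RepA σ g A X (fun j => (k j : ℤ))).card : ℝ) <
          c0 * τ / (L + 1) * (x / Real.log x ^ (r + 1))) with hTt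
  have hinj : Function.Injective (fun k : Fin r → ℕ => fun j => k j + Y j) := by
    intro k k' hkk
    funext j
    have := congrFun hkk j
    simp only at this
    omega
  have hsub : (Tt \ Sm).image (fun k => fun j => k j + Y j) ⊆
      Bd ∪ Ex.image (fun k => fun j => k j + Y j) := by
    intro N hN
    rw [mem_image] at hN
    obtain ⟨k, hk, rfl⟩ := hN
    rw [Finset.mem_sdiff, hTt, mem_filter] at hk
    obtain ⟨⟨hk0, hLoc, hno⟩, hkS⟩ := hk
    have hk1 := Fintype.mem_piFinset.1 hk0
    have hkT : ∀ j, T j < k j := by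
      intro j
      by_contra hc
      push Not at hc
      apply hkS
      rw [hSm, mem_filter]
      exact ⟨hk0, j, hc⟩
    rw [mem_union]
    by_contra hcon
    rw [not_or] at hcon
    obtain ⟨hcB, hcE⟩ := hcon
    have e0 : (fun j => ((k j + Y j : ℕ) : ℤ) - (Y j : ℤ)) = fun j => (k j : ℤ) := by
      funext j
      push_cast
      ring
    have hkI : ∀ j, 1 ≤ k j ∧ k j ≤ K * x ^ (g j).natDegree := fun j => mem_Icc.1 (hk1 j)
    have hρ : τ * ((Nat.totient (Wm X) : ℝ) ^ (r + 1) / (Wm X : ℝ) ^ r) ≤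
        ((rhoS σ g X (fun j => (k j : ℤ))).card : ℝ) := by
      by_contra hc
      push Not at hc
      apply hcE
      rw [mem_image]
      refine ⟨k, ?_, rfl⟩
      rw [hEx, mem_filter, Fintype.mem_piFinset]
      refine ⟨fun j => ?_, hLoc, hc⟩
      rw [mem_Ico]
      have := hkI j
      omega
    have e1 := hB2 (fun j => k j + Y j) (by
      rw [Fintype.mem_piFinset]
      intro j
      rw [mem_Ico]
      have := hkI j
      have := hkT j
      have := hYT j
      omega) hcB (by
      rw [e0]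
      exact hρ)
    rw [e0] at e1
    have hwp := wX_pos X
    have e3 : c0 * τ * (X / ℓ ^ (r + 1)) ≤ c0 * (((rhoS σ g X
        (fun j => (k j : ℤ))).card : ℝ) * wX X ^ r *
          (X / (Nat.totient (Wm X) * ℓ ^ (r + 1)))) := by
      have f1 : c0 * τ * (X / ℓ ^ (r + 1)) =
          c0 * ((τ * ((Nat.totient (Wm X) : ℝ) ^ (r + 1) / (Wm X : ℝ) ^ r)) * wX X ^ r *
          (X / (Nat.totient (Wm X) * ℓ ^ (r + 1)))) := by
        unfold wX
        rw [div_pow, pow_succ (Nat.totient (Wm X) : ℝ) r]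
        field_simp
      rw [f1]
      apply mul_le_mul_of_nonneg_left _ hc0.le
      apply mul_le_mul_of_nonneg_right _ (by positivity)
      exact mul_le_mul_of_nonneg_right hρ (by positivity)
    have e4 : c0 * τ / (L + 1) * (x / Real.log x ^ (r + 1)) ≤ c0 * τ * (X / ℓ ^ (r + 1)) := by
      have f1 : (x : ℝ) / Real.log x ^ (r + 1) ≤ (L + 1) * X / ℓ ^ (r + 1) :=
        div_le_div₀ (by positivity) hx4r (by positivity)
          (pow_le_pow_left₀ (by linarith) hlx _)
      calc c0 * τ / (L + 1) * (x / Real.log x ^ (r + 1)) ≤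
          c0 * τ / (L + 1) * ((L + 1) * X / ℓ ^ (r + 1)) :=
            mul_le_mul_of_nonneg_left f1 (by positivity)
        _ = _ := by field_simp
    linarith
  have hc1 := card_le_card hsub
  rw [card_image_of_injective _ hinj] at hc1
  have hc2 := card_union_le Bd (Ex.image (fun k => fun j => k j + Y j))
  rw [card_image_of_injective _ hinj] at hc2
  have hc3 : ((Tt \ Sm).card : ℝ) ≤ (Bd.card : ℝ) + Ex.card := by exact_mod_cast hc1.trans hc2
  have hc4 : (Tt.card : ℝ) ≤ ((Tt \ Sm).card : ℝ) + Sm.card := by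
    have : Tt.card ≤ (Tt \ Sm).card + Sm.card := by
      refine (card_le_card ?_).trans (card_union_le _ _)
      intro k hk
      rw [mem_union, Finset.mem_sdiff]
      by_cases hS : k ∈ Sm
      · exact Or.inr hS
      · exact Or.inl ⟨hk, hS⟩
    exact_mod_cast this
  have hB1' : (Bd.card : ℝ) ≤ κ / 4 * PX := hB1
  have hP : κ / 4 * PX ≤ κ / 4 * Px := mul_le_mul_of_nonneg_left hPx (by positivity)
  have hP0 : 0 ≤ κ * Px := by positivity
  linarith

end Pool.Agent.X15.SysS
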